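import Pool.Agent.Helper76.TX.StU

/-!
# UPX: the upper bound for the rank of `evX d`
-/

set_option autoImplicit false

namespace Pool.Agent.Helper79.TX

open Pool.Agent.Helper76.TX Pool.Agent.Helper14.CV Pool.Agent.Helper28.WK Pool.Agent.Helper78.TW

/-- The image of `evX d` on the symbols of level `2^n`. -/
private noncomputable def V (d n : ℕ) : Submodule ℂ (ℕ → ℕ → ℂ) := (XS n).map (evX d)

/-- The image of `evX d` on the new symbols of level `2^n`. -/
private noncomputable def W (d n : ℕ) : Submodule ℂ (ℕ → ℕ → ℂ) :=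
  (NSS n (jacobiSym (-(2 ^ n)) d) (jacobiSym (-1) d)).map (evX d)

private theorem sg_pow {d : ℕ} (hd : Odd d) (n : ℕ) : Sg (jacobiSym (-(2 ^ n)) d) := by
  refine jacobiSym.eq_one_or_neg_one ?_
  rw [Int.gcd, Int.natAbs_neg, Int.natAbs_pow, Int.natAbs_natCast]
  exact Nat.Coprime.pow_left n (Nat.coprime_two_left.2 hd)

private theorem sg_one {d : ℕ} : Sg (jacobiSym (-1) d) := by
  refine jacobiSym.eq_one_or_neg_one ?_
  rw [Int.gcd, Int.natAbs_neg, Int.natAbs_one]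
  exact Nat.gcd_one_left _

private theorem V_le (h : B3x) {d n : ℕ} (hd : Odd d) (hn : 3 ≤ n) :
    V d n ≤ V d (n - 1) ⊔ W d n := by
  rintro x ⟨G, hG, rfl⟩
  obtain ⟨G0, G1, h0, h1, h2⟩ := h d n G hd hn hG
  rw [h2]
  exact Submodule.mem_sup.mpr ⟨evX d G0, ⟨G0, h0, rfl⟩, evX d G1, ⟨G1, h1, rfl⟩, rfl⟩

private theorem aux (X : Submodule ℂ (ℤ → ℤ → ℂ)) (L : (ℤ → ℤ → ℂ) →ₗ[ℂ] (ℕ → ℕ → ℂ)) (N : ℕ)
    (Θ : X →ₗ[ℂ] (Fin N → ℂ)) (hΘ : ∀ G : X, Θ G = 0 → EqC (G : ℤ → ℤ → ℂ) 0)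
    (hL : ∀ G : ℤ → ℤ → ℂ, EqC G 0 → L G = 0) :
    Module.Finite ℂ (X.map L) ∧ ∀ (z : ℕ) (H : Fin z → ℤ → ℤ → ℂ), (∀ k, H k ∈ X) →
      (∀ k, L (H k) = 0) → (∀ c : Fin z → ℂ, EqC (∑ k, c k • H k) 0 → c = 0) →
      Module.finrank ℂ (X.map L) + z ≤ N := by
  set f : X →ₗ[ℂ] (ℕ → ℕ → ℂ) := L ∘ₗ X.subtype with hf
  have hker : LinearMap.ker Θ ≤ LinearMap.ker f := by
    intro G hG
    have h1 : EqC (G : ℤ → ℤ → ℂ) 0 := hΘ G (LinearMap.mem_ker.mp hG)
    refine LinearMap.mem_ker.mpr ?_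
    show L (G : ℤ → ℤ → ℂ) = 0
    exact hL _ h1
  set g : LinearMap.range Θ →ₗ[ℂ] (ℕ → ℕ → ℂ) :=
    (Submodule.liftQ (LinearMap.ker Θ) f hker) ∘ₗ (Θ.quotKerEquivRange.symm).toLinearMap with hg
  have hgΘ : ∀ G : X, g ⟨Θ G, LinearMap.mem_range_self Θ G⟩ = f G := by
    intro G
    have h1 : Θ.quotKerEquivRange.symm ⟨Θ G, LinearMap.mem_range_self Θ G⟩ =
        (LinearMap.ker Θ).mkQ G := by
      rw [LinearEquiv.symm_apply_eq]
      rfl
    show (Submodule.liftQ (LinearMap.ker Θ) f hker)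
      (Θ.quotKerEquivRange.symm ⟨Θ G, LinearMap.mem_range_self Θ G⟩) = f G
    rw [h1]
    rfl
  have hrange : X.map L = LinearMap.range g := by
    ext x
    constructor
    · rintro ⟨G, hG, rfl⟩
      exact ⟨⟨Θ ⟨G, hG⟩, LinearMap.mem_range_self Θ _⟩, hgΘ ⟨G, hG⟩⟩
    · rintro ⟨⟨y, G, rfl⟩, rfl⟩
      exact ⟨(G : ℤ → ℤ → ℂ), G.2, (hgΘ G).symm⟩
  have hfin : Module.Finite ℂ (X.map L) := by
    rw [hrange]
    infer_instance
  have hrk := LinearMap.finrank_range_add_finrank_ker g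
  have hle : Module.finrank ℂ (LinearMap.range Θ) ≤ N := by
    have := Submodule.finrank_le (LinearMap.range Θ)
    simpa using this
  refine ⟨hfin, fun z H hH he hind => ?_⟩
  -- the vectors `Θ H_k` in the kernel of `g`
  have hv : ∀ k, (⟨Θ ⟨H k, hH k⟩, LinearMap.mem_range_self Θ _⟩ : LinearMap.range Θ) ∈
      LinearMap.ker g := by
    intro k
    rw [LinearMap.mem_ker, hgΘ ⟨H k, hH k⟩]
    exact he k
  have hli0 : LinearIndependent ℂ (fun k => Θ ⟨H k, hH k⟩) := by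
    refine Fintype.linearIndependent_iff.2 fun c hc k => ?_
    have h3 : Θ (∑ k, c k • (⟨H k, hH k⟩ : X)) = 0 := by
      rw [map_sum]
      simp only [map_smul]
      exact hc
    have h4 := hΘ _ h3
    have h5 : ((∑ k, c k • (⟨H k, hH k⟩ : X) : X) : ℤ → ℤ → ℂ) = ∑ k, c k • H k := by
      have h6 : X.subtype (∑ k, c k • (⟨H k, hH k⟩ : X)) = ∑ k, c k • H k := by
        simp only [map_sum, map_smul]
        rfl
      exact h6
    rw [h5] at h4
    exact congrFun (hind c h4) k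
  have hli : LinearIndependent ℂ (fun k => (⟨_, hv k⟩ : LinearMap.ker g)) :=
    LinearIndependent.of_comp ((LinearMap.range Θ).subtype ∘ₗ (LinearMap.ker g).subtype) hli0
  have h6 := hli.fintype_card_le_finrank
  rw [Fintype.card_fin] at h6
  rw [hrange]
  omega

private theorem W_bound (h : UBS) {d n : ℕ} (hd : Odd d) (hn : 3 ≤ n) :
    Module.Finite ℂ (W d n) ∧ ∀ (z : ℕ) (H : Fin z → ℤ → ℤ → ℂ),
      (∀ k, NewSymS n (jacobiSym (-(2 ^ n)) d) (jacobiSym (-1) d) (H k)) →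
      (∀ k, evX d (H k) = 0) → (∀ c : Fin z → ℂ, EqC (∑ k, c k • H k) 0 → c = 0) →
      Module.finrank ℂ (W d n) + z ≤ dd n + 2 ^ (n / 2) := by
  obtain ⟨Θ, hΘ⟩ := h n _ _ hn (sg_pow hd n) (sg_one (d := d))
  have hd0 : d ≠ 0 := by
    rintro rfl
    exact absurd hd (by decide)
  exact aux _ (evX d) _ Θ hΘ fun G h1 => by rw [evX_congr hd0 h1, map_zero]

/-- the sum of the `2 ^ (m / 2)` -/
private def T (n : ℕ) : ℕ := ∑ m ∈ Finset.Ico 3 (n + 1), 2 ^ (m / 2)

private theorem T_succ {n : ℕ} (hn : 2 ≤ n) : T (n + 1) = T n + 2 ^ ((n + 1) / 2) := by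
  unfold T
  rw [Finset.sum_Ico_succ_top (by omega)]

private theorem T_le {n : ℕ} (hn : 2 ≤ n) :
    (n % 2 = 0 → T n + 5 ≤ 3 * 2 ^ (n / 2)) ∧ (n % 2 = 1 → T n + 5 ≤ 4 * 2 ^ (n / 2)) := by
  induction n, hn using Nat.le_induction with
  | base => exact ⟨fun _ => by decide, fun h => absurd h (by norm_num)⟩
  | succ n hn ih =>
    rw [T_succ hn]
    rcases Nat.even_or_odd' n with ⟨k, rfl | rfl⟩
    · have h1 := ih.1 (by omega)
      have e1 : 2 * k / 2 = k := by omega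
      have e2 : (2 * k + 1) / 2 = k := by omega
      rw [e1] at h1
      rw [e2]
      exact ⟨fun h => by omega, fun _ => by omega⟩
    · have h1 := ih.2 (by omega)
      have e1 : (2 * k + 1) / 2 = k := by omega
      have e2 : (2 * k + 1 + 1) / 2 = k + 1 := by omega
      rw [e1] at h1
      rw [e2, pow_succ]
      exact ⟨fun _ => by omega, fun h => by omega⟩

private theorem V_bound (h3 : B3x) (hB : Bsx) (hU : UBS) {d : ℕ} (hd : Odd d) (n : ℕ)
    (hn : 2 ≤ n) :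
    Module.Finite ℂ (V d n) ∧ Module.finrank ℂ (V d n) ≤ DD n + 1 + T n := by
  induction n, hn using Nat.le_induction with
  | base =>
    have hd0 : d ≠ 0 := by
      rintro rfl
      exact absurd hd (by decide)
    obtain ⟨a, b⟩ := hB d hd0
    refine ⟨a, ?_⟩
    have h3 : 1 ≤ DD 2 := Nat.le_add_right _ _
    have h4 : Module.finrank ℂ (V d 2) ≤ 2 := b
    omega
  | succ m hm ih =>
    obtain ⟨ih1, ih2⟩ := ih
    have hm3 : 3 ≤ m + 1 := by omega
    obtain ⟨w1, w2⟩ := W_bound hU (d := d) hd hm3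
    have w3 := w2 0 (fun k => 0) (fun k => k.elim0) (fun k => k.elim0)
      (fun c _ => funext fun k => k.elim0)
    have hle := V_le h3 hd hm3
    rw [Nat.add_sub_cancel] at hle
    have hfin : Module.Finite ℂ (V d m ⊔ W d (m + 1) : Submodule ℂ (ℕ → ℕ → ℂ)) :=
      Submodule.finiteDimensional_sup _ _
    refine ⟨Submodule.finiteDimensional_of_le hle, ?_⟩
    have h1 := Submodule.finrank_mono hle
    have h2 := Submodule.finrank_add_le_finrank_add_finrank (V d m) (W d (m + 1))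
    have h3 : DD (m + 1) = DD m + dd (m + 1) := by
      unfold DD
      rw [Finset.sum_range_succ]
      ring
    rw [T_succ hm]
    omega

theorem hUpx : StUpx := by
  intro h3 hB hU d n hd hn
  refine ⟨(V_bound h3 hB hU hd n (by omega)).1, fun z H hH he hind => ?_⟩
  obtain ⟨m, rfl⟩ : ∃ m, n = m + 1 := ⟨n - 1, by omega⟩
  have hm : 2 ≤ m := by omega
  obtain ⟨v1, v2⟩ := V_bound h3 hB hU hd m hm
  obtain ⟨w1, w2⟩ := W_bound hU (d := d) hd hn
  have w3 := w2 z H hH he hind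
  have hle := V_le h3 hd hn
  rw [Nat.add_sub_cancel] at hle
  have hfin : Module.Finite ℂ (V d m ⊔ W d (m + 1) : Submodule ℂ (ℕ → ℕ → ℂ)) :=
    Submodule.finiteDimensional_sup _ _
  have h1 := Submodule.finrank_mono hle
  have h2 := Submodule.finrank_add_le_finrank_add_finrank (V d m) (W d (m + 1))
  have h4 : DD (m + 1) = DD m + dd (m + 1) := by
    unfold DD
    rw [Finset.sum_range_succ]
    ring
  have h5 : T (m + 1) + 1 ≤ 4 * 2 ^ ((m + 1) / 2) := by
    obtain ⟨t1, t2⟩ := T_le (n := m + 1) (by omega)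
    rcases Nat.mod_two_eq_zero_or_one (m + 1) with h6 | h6
    · have := t1 h6
      omega
    · have := t2 h6
      omega
  rw [T_succ hm] at h5
  show Module.finrank ℂ (V d (m + 1)) + z ≤ DD (m + 1) + 4 * 2 ^ ((m + 1) / 2)
  omega

end Pool.Agent.Helper79.TX
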